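import Mathlib

set_option autoImplicit false

namespace Pool.Agent.Queens

open Finset

/-- An affine map with coprime multiplier permutes the residues `0, …, p-1`. -/
theorem sum_affine {M : Type*} [AddCommMonoid M] (p m r : ℕ) (hp : 0 < p) (hm : Nat.Coprime m p)
    (f : ℕ → M) :
    ∑ y ∈ range p, f ((m * y + r) % p) = ∑ y ∈ range p, f y := by
  have hinj : Set.InjOn (fun y => (m * y + r) % p) (range p : Set ℕ) := by
    intro y hy z hz hyz
    simp only [coe_range, Set.mem_Iio] at hy hz
    have h1 : (m * y + r) ≡ (m * z + r) [MOD p] := hyz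
    have h2 : m * y ≡ m * z [MOD p] := Nat.ModEq.add_right_cancel' r h1
    have h3 : y ≡ z [MOD p] :=
      Nat.ModEq.cancel_left_of_coprime (by rwa [Nat.coprime_comm] at hm) h2
    have h4 : y % p = z % p := h3
    rwa [Nat.mod_eq_of_lt hy, Nat.mod_eq_of_lt hz] at h4
  have himg : (range p).image (fun y => (m * y + r) % p) = range p := by
    apply Finset.eq_of_subset_of_card_le
    · intro z hz
      rw [mem_image] at hz
      obtain ⟨y, _, rfl⟩ := hz
      exact mem_range.2 (Nat.mod_lt _ hp)
    · rw [Finset.card_image_of_injOn hinj]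
  calc ∑ y ∈ range p, f ((m * y + r) % p)
      = ∑ z ∈ (range p).image (fun y => (m * y + r) % p), f z := by
        rw [Finset.sum_image hinj]
    _ = ∑ y ∈ range p, f y := by rw [himg]

/-- Existence of a potential modulo `2` for the rotation `y ↦ y + a` of `ℤ/p`. -/
theorem exists_bits (p a : ℕ) (hp1 : 1 < p) (hcop : Nat.Coprime a p) (lab : ℕ → ℕ)
    (hsum : (∑ y ∈ range p, lab y) % 2 = 0) :
    ∃ x : ℕ → ℕ, ∀ y < p, x ((y + a) % p) % 2 = (x y + lab y) % 2 := by
  have hp : 0 < p := by omega
  obtain ⟨b, hb⟩ : ∃ b, (a * b) % p = 1 % p := by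
    obtain ⟨b, hb⟩ := Nat.exists_mul_mod_eq_one_of_coprime hcop hp1
    exact ⟨b, by rw [hb.2, Nat.mod_eq_of_lt hp1]⟩
  set k : ℕ → ℕ := fun y => (b * y) % p with hk
  have hkey : ∀ y < p, (a * k y) % p = y := by
    intro y hy
    have : (a * k y) ≡ y [MOD p] := by
      have h1 : k y ≡ b * y [MOD p] := Nat.mod_modEq _ _
      have h2 : a * k y ≡ a * (b * y) [MOD p] := h1.mul_left a
      have h3 : a * (b * y) = (a * b) * y := by ring
      rw [h3] at h2
      have h4 : a * b ≡ 1 [MOD p] := hb
      have h5 := h4.mul_right y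
      rw [one_mul] at h5
      exact h2.trans h5
    have h6 : (a * k y) % p = y % p := this
    rwa [Nat.mod_eq_of_lt hy] at h6
  refine ⟨fun y => ∑ v ∈ range (k y), lab ((a * v) % p), ?_⟩
  intro y hy
  have hstep : k ((y + a) % p) = (k y + 1) % p := by
    have h1 : b * ((y + a) % p) ≡ b * (y + a) [MOD p] := (Nat.mod_modEq _ _).mul_left b
    have h2 : b * (y + a) = b * y + a * b := by ring
    rw [h2] at h1
    have h3 : b * y + a * b ≡ k y + 1 [MOD p] :=
      Nat.ModEq.add (Nat.mod_modEq _ _).symm hb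
    exact h1.trans h3
  have hklt : k y < p := Nat.mod_lt _ hp
  simp only [hstep]
  rcases Nat.lt_or_ge (k y + 1) p with hlt | hge
  · rw [Nat.mod_eq_of_lt hlt, Finset.sum_range_succ, hkey y hy]
  · have heq : k y + 1 = p := by omega
    rw [heq, Nat.mod_self, Finset.sum_range_zero]
    have h1 : ∑ v ∈ range p, lab ((a * v) % p) = ∑ y ∈ range p, lab y := by
      have := sum_affine p a 0 hp hcop lab
      simpa using this
    have h2 : ∑ v ∈ range p, lab ((a * v) % p)
        = ∑ v ∈ range (k y), lab ((a * v) % p) + lab y := by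
      conv_lhs => rw [← heq, Finset.sum_range_succ]
      rw [heq, hkey y hy]
    rw [← h2, h1, hsum]
    rfl

end Pool.Agent.Queens
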