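import Pool.Agent.W_MP_5f6f90_co.Pattern

set_option autoImplicit false

namespace Pool.Agent.Queens

open Finset

theorem row_eq (p r y q I : ℕ) (h1 : 3 * y + r = p * q + I) (h2 : I < p) : row p r y = I := by
  unfold row
  rw [h1, Nat.mul_add_mod, Nat.mod_eq_of_lt h2]

/-- If no link triple can be switched, the default switch set has odd cardinality. -/
theorem count_odd (p a h t r : ℕ) (hp : p = 3 * a + h) (ha : a = h + 3 * t) (hh : 0 < h)
    (hht : h + 3 ≤ 3 * t) (hr : r < p)
    (hno : ∀ y < h, ¬ (2 * h ≤ row p r y ∧ row p r y < a)) :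
    ∑ y ∈ range p, sw p a h r y = t := by
  have hdich : (r < 2 * h ∧ r + 3 * h < 2 * h + 3) ∨ (a ≤ r ∧ r + 3 * h < p + 2 * h + 3) := by
    have h0 : row p r 0 = r := row_eq p r 0 0 r (by ring) hr
    have h0' := hno 0 hh
    rw [h0] at h0'
    rcases Nat.lt_or_ge r (2 * h) with h1 | h1
    · left
      refine ⟨h1, ?_⟩
      by_contra hc
      have hy : (2 * h - r + 2) / 3 < h := by omega
      have := hno _ hy
      have hrow : row p r ((2 * h - r + 2) / 3) = 3 * ((2 * h - r + 2) / 3) + r :=
        row_eq p r _ 0 _ (by ring) (by omega)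
      rw [hrow] at this
      apply this
      constructor <;> omega
    · right
      have h2 : a ≤ r := by omega
      refine ⟨h2, ?_⟩
      by_contra hc
      have hy : (p + 2 * h - r + 2) / 3 < h := by omega
      have := hno _ hy
      have hrow : row p r ((p + 2 * h - r + 2) / 3) = 3 * ((p + 2 * h - r + 2) / 3) + r - p :=
        row_eq p r _ 1 _ (by omega) (by omega)
      rw [hrow] at this
      apply this
      constructor <;> omega
  have hsplit : ∑ y ∈ range p, sw p a h r y =
      ∑ y ∈ range p, (if y < a ∧ h ≤ row p r y ∧ row p r y < a then 1 else 0) +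
      ∑ y ∈ range p, (if 2 * a ≤ y ∧ y < 2 * a + h ∧ row p r y + h < a then 1 else 0) := by
    rw [← Finset.sum_add_distrib]
    apply Finset.sum_congr rfl
    intro y _
    unfold sw
    split_ifs <;> omega
  rw [hsplit]
  rw [← Finset.sum_filter, ← Finset.sum_filter, Finset.sum_const, Finset.sum_const,
    smul_eq_mul, smul_eq_mul, mul_one, mul_one]
  rcases hdich with ⟨h1, h2⟩ | ⟨h1, h2⟩
  · have hf1 : (range p).filter (fun y => y < a ∧ h ≤ row p r y ∧ row p r y < a)
        = Ico ((h - r + 2) / 3) ((a - r + 2) / 3) := by
      ext y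
      simp only [mem_filter, mem_range, mem_Ico]
      constructor
      · rintro ⟨hy, hya, hI1, hI2⟩
        have hrow : row p r y = 3 * y + r := row_eq p r y 0 _ (by ring) (by omega)
        rw [hrow] at hI1 hI2
        constructor <;> omega
      · rintro ⟨hy1, hy2⟩
        have hrow : row p r y = 3 * y + r := row_eq p r y 0 _ (by ring) (by omega)
        rw [hrow]
        refine ⟨by omega, by omega, by omega, by omega⟩
    have hf2 : (range p).filter (fun y => 2 * a ≤ y ∧ y < 2 * a + h ∧ row p r y + h < a)
        = ∅ := by
      ext y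
      simp only [mem_filter, mem_range, notMem_empty, iff_false]
      rintro ⟨hy, hy1, hy2, hI⟩
      have hrow : row p r y = 3 * y + r - p := row_eq p r y 1 _ (by omega) (by omega)
      rw [hrow] at hI
      omega
    rw [hf1, hf2, card_empty, Nat.card_Ico]
    omega
  · have hf1 : (range p).filter (fun y => y < a ∧ h ≤ row p r y ∧ row p r y < a)
        = Ico ((p + h - r + 2) / 3) (min a ((p + a - r + 2) / 3)) := by
      ext y
      simp only [mem_filter, mem_range, mem_Ico]
      constructor
      · rintro ⟨hy, hya, hI1, hI2⟩
        rcases Nat.lt_or_ge (3 * y + r) p with hlt | hge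
        · have hrow : row p r y = 3 * y + r := row_eq p r y 0 _ (by ring) (by omega)
          rw [hrow] at hI1 hI2
          omega
        · have hrow : row p r y = 3 * y + r - p := row_eq p r y 1 _ (by omega) (by omega)
          rw [hrow] at hI1 hI2
          constructor <;> omega
      · rintro ⟨hy1, hy2⟩
        have hrow : row p r y = 3 * y + r - p := row_eq p r y 1 _ (by omega) (by omega)
        rw [hrow]
        refine ⟨by omega, by omega, by omega, by omega⟩
    have hf2 : (range p).filter (fun y => 2 * a ≤ y ∧ y < 2 * a + h ∧ row p r y + h < a)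
        = Ico (2 * a) (2 * a + (a + h + 2 - r) / 3) := by
      ext y
      simp only [mem_filter, mem_range, mem_Ico]
      constructor
      · rintro ⟨hy, hy1, hy2, hI⟩
        have hrow : row p r y = 3 * y + r - 2 * p := row_eq p r y 2 _ (by omega) (by omega)
        rw [hrow] at hI
        constructor <;> omega
      · rintro ⟨hy1, hy2⟩
        have hrow : row p r y = 3 * y + r - 2 * p := row_eq p r y 2 _ (by omega) (by omega)
        rw [hrow]
        refine ⟨by omega, by omega, by omega, by omega⟩
    rw [hf1, hf2, Nat.card_Ico, Nat.card_Ico]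
    omega

/-- The switching correction. -/
def tog (a y0 y : ℕ) : ℕ := if y = y0 ∨ y = y0 + a ∨ y = y0 + 2 * a then 1 else 0

theorem sum_tog (p a y0 : ℕ) (ha : 0 < a) (hy : y0 + 2 * a < p) :
    ∑ y ∈ range p, tog a y0 y = 3 := by
  unfold tog
  rw [← Finset.sum_filter, Finset.sum_const, smul_eq_mul, mul_one]
  have : (range p).filter (fun y => y = y0 ∨ y = y0 + a ∨ y = y0 + 2 * a)
      = {y0, y0 + a, y0 + 2 * a} := by
    ext y
    simp only [mem_filter, mem_range, mem_insert, mem_singleton]
    omega
  rw [this]
  rw [Finset.card_insert_of_notMem, Finset.card_insert_of_notMem, Finset.card_singleton]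
  · simp only [mem_singleton]; omega
  · simp only [mem_insert, mem_singleton]; omega

/-- The bits solving the link system of every class. -/
theorem bits_exist (p a h t r : ℕ) (hp : p = 3 * a + h) (ha : a = h + 3 * t) (hh : 0 < h)
    (hht : h + 3 ≤ 3 * t) (hodd : t % 2 = 1) (hcop : Nat.Coprime a p) (hcop3 : Nat.Coprime 3 p)
    (hr : r < p) :
    ∃ x : ℕ → ℕ, ∀ y < p,
      (¬ (row p r y < a ∧ y < p - a) →
        (x ((y + a) % p) + x y + 1 + (if row p r y < a then 1 else 0) +
          (if p - a ≤ y then 1 else 0)) % 2 = 0) ∧
      (¬ (row p r y < p - 2 * a ∧ p - 2 * a ≤ y) →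
        (x ((y + 2 * a) % p) + x y + 1 + (if p - 2 * a ≤ row p r y then 1 else 0) +
          (if p - 2 * a ≤ y then 1 else 0)) % 2 = 0) := by
  have hp0 : 0 < p := by omega
  have hpodd : p % 2 = 1 := by omega
  by_cases hS : (∑ y ∈ range p, sw p a h r y) % 2 = 1
  · refine bits_of_correction p a h r hp hh (by omega) hpodd hcop hcop3 (fun _ => 0) ?_ ?_ ?_
    · intro y _ hne; exact absurd rfl hne
    · intro y _ _; rfl
    · simpa using hS
  · have hex : ∃ y0 < h, 2 * h ≤ row p r y0 ∧ row p r y0 < a := by
      by_contra hno
      apply hS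
      rw [count_odd p a h t r hp ha hh hht hr]
      · exact hodd
      · intro y hy hc
        exact hno ⟨y, hy, hc⟩
    obtain ⟨y0, hy0, hI1, hI2⟩ := hex
    have hr1 : row p r (y0 + a) = row p r y0 - h := by
      have h1 := row_step p a h r y0 hp hh
      rw [Nat.mod_eq_of_lt (show y0 + a < p by omega), if_neg (by omega)] at h1
      exact h1
    have hr2 : row p r (y0 + 2 * a) = row p r y0 - 2 * h := by
      have h1 := row_step p a h r (y0 + a) hp hh
      rw [Nat.mod_eq_of_lt (show y0 + a + a < p by omega), if_neg (by omega), hr1] at h1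
      rw [show y0 + 2 * a = y0 + a + a by ring, h1]
      omega
    refine bits_of_correction p a h r hp hh (by omega) hpodd hcop hcop3 (tog a y0) ?_ ?_ ?_
    · intro y hy hne
      have hcases : y = y0 ∨ y = y0 + a ∨ y = y0 + 2 * a := by
        by_contra hc
        apply hne
        unfold tog
        rw [if_neg hc]
      rcases hcases with rfl | rfl | rfl
      · exact ⟨hI2, by omega⟩
      · rw [hr1]; exact ⟨by omega, by omega⟩
      · rw [hr2]; exact ⟨by omega, by omega⟩
    · intro y hy hB
      have hstep := row_step p a h r y hp hh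
      have hlt := row_lt p r y hp0
      rcases Nat.lt_or_ge (y + a) p with hlt' | hge
      · rw [Nat.mod_eq_of_lt hlt'] at hstep ⊢
        by_cases h2 : y = y0 + 2 * a
        · exfalso
          apply hB
          rw [h2, hr2]
          constructor <;> omega
        · by_cases h3 : y + a = y0
          · omega
          · unfold tog
            split_ifs <;> omega
      · have hmod : (y + a) % p = y + a - p := by
          rw [Nat.mod_eq_sub_mod hge, Nat.mod_eq_of_lt (by omega)]
        rw [hmod] at hstep ⊢
        by_cases h2 : y = y0 + 2 * a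
        · exfalso
          apply hB
          rw [h2, hr2]
          constructor <;> omega
        · by_cases h3 : y + a - p = y0
          · exfalso
            rw [h3] at hstep
            apply hB
            constructor
            · split_ifs at hstep <;> omega
            · omega
          · unfold tog
            split_ifs <;> omega
    · rw [sum_tog p a y0 (by omega) (by omega)]
      omega

end Pool.Agent.Queens
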