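import Pool.Agent.W_MP_5f6f90_co.TwoPMain

set_option autoImplicit false

namespace Pool.Agent.Queens

/-- Small cases of the existence of a shift parameter. -/
theorem shift_small : ∀ p ∈ Finset.Ico 92 751, Nat.Coprime p 6 →
    ∃ t ∈ Finset.range 84, t % 4 = p % 4 ∧ 9 * t + 4 ≤ p ∧ p + 12 ≤ 21 * t ∧ Nat.Coprime t p := by
  decide +kernel

theorem coprime_of_eleven (p t r : ℕ) (h2 : Nat.Coprime r p) (h : 11 * t + r = p ∨ 11 * t = p + r) :
    Nat.Coprime t p := by
  have h3 : Nat.Coprime (11 * t) p := by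
    rcases h with h | h
    · have : Nat.gcd (11 * t) p = Nat.gcd (11 * t) r := by
        rw [← h]; simp
      unfold Nat.Coprime
      rw [this]
      have h5 : Nat.gcd (11 * t) r = Nat.gcd p r := by
        rw [← h]; simp
      rw [h5]
      exact h2.symm
    · rw [h]
      simpa using h2
  exact Nat.Coprime.coprime_mul_left h3

theorem coprime_of_eleven_dvd (p t : ℕ) (h2 : Nat.Coprime 2 p) (ht : ¬ 11 ∣ t)
    (h : 11 * t + 22 = p ∨ 11 * t = p + 22) : Nat.Coprime t p := by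
  rw [Nat.coprime_iff_gcd_eq_one] at h2
  have h1 : Nat.gcd t p ∣ 22 := by
    have ha : Nat.gcd t p ∣ 11 * t := (Nat.gcd_dvd_left t p).mul_left 11
    have hb : Nat.gcd t p ∣ p := Nat.gcd_dvd_right t p
    rcases h with h | h
    · rw [← h] at hb ⊢
      rw [← h] at ha
      exact (Nat.dvd_add_right ha).1 hb
    · rw [h] at ha
      exact (Nat.dvd_add_right hb).1 ha
  have h3 : Nat.Coprime (Nat.gcd t p) 2 := by
    apply Nat.Coprime.coprime_dvd_left (Nat.gcd_dvd_right t p)
    rw [Nat.coprime_comm]; exact h2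
  have h4 : Nat.Coprime (Nat.gcd t p) 11 := by
    rw [Nat.coprime_comm, Nat.Prime.coprime_iff_not_dvd (by norm_num)]
    intro hc
    exact ht (hc.trans (Nat.gcd_dvd_left t p))
  have h5 : Nat.Coprime (Nat.gcd t p) 22 := Nat.Coprime.mul_right h3 h4
  have h6 := Nat.Coprime.eq_one_of_dvd h5 h1
  exact h6

theorem shift_exists (p : ℕ) (hp : 92 ≤ p) (h6 : Nat.Coprime p 6) :
    ∃ t, t % 4 = p % 4 ∧ 9 * t + 4 ≤ p ∧ p + 12 ≤ 21 * t ∧ Nat.Coprime t p := by
  rcases Nat.lt_or_ge p 751 with hlt | hge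
  · obtain ⟨t, _, ht⟩ := shift_small p (Finset.mem_Ico.2 ⟨hp, hlt⟩) h6
    exact ⟨t, ht⟩
  have h2 : Nat.Coprime 2 p := (Nat.Coprime.coprime_dvd_right (by norm_num : 2 ∣ 6) h6).symm
  have h3 : Nat.Coprime 3 p := (Nat.Coprime.coprime_dvd_right (by norm_num : 3 ∣ 6) h6).symm
  have hodd : p % 2 = 1 := Nat.odd_iff.1 (Nat.coprime_two_left.1 h2)
  have hc6 : Nat.Coprime 6 p := h6.symm
  have hc18 : Nat.Coprime 18 p := Nat.Coprime.mul_left hc6 h3
  have hc54 : Nat.Coprime 54 p := Nat.Coprime.mul_left hc18 h3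
  have hc162 : Nat.Coprime 162 p := Nat.Coprime.mul_left hc54 h3
  have hlt : p % 11 < 11 := Nat.mod_lt _ (by norm_num)
  have hcase : p % 11 = 0 ∨ p % 11 = 1 ∨ p % 11 = 2 ∨ p % 11 = 3 ∨ p % 11 = 4 ∨ p % 11 = 5 ∨
      p % 11 = 6 ∨ p % 11 = 7 ∨ p % 11 = 8 ∨ p % 11 = 9 ∨ p % 11 = 10 := by omega
  rcases hcase with h | h | h | h | h | h | h | h | h | h | h
  · by_cases h11 : 11 ∣ (p - 22) / 11
    · refine ⟨(p + 22) / 11, by omega, by omega, by omega, ?_⟩
      exact coprime_of_eleven_dvd p _ h2 (by omega) (by omega)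
    · refine ⟨(p - 22) / 11, by omega, by omega, by omega, ?_⟩
      exact coprime_of_eleven_dvd p _ h2 h11 (by omega)
  · exact ⟨(p + 54) / 11, by omega, by omega, by omega, coprime_of_eleven p _ 54 hc54 (by omega)⟩
  · exact ⟨(p - 2) / 11, by omega, by omega, by omega, coprime_of_eleven p _ 2 h2 (by omega)⟩
  · exact ⟨(p + 162) / 11, by omega, by omega, by omega,
      coprime_of_eleven p _ 162 hc162 (by omega)⟩
  · exact ⟨(p + 18) / 11, by omega, by omega, by omega, coprime_of_eleven p _ 18 hc18 (by omega)⟩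
  · exact ⟨(p + 6) / 11, by omega, by omega, by omega, coprime_of_eleven p _ 6 hc6 (by omega)⟩
  · exact ⟨(p - 6) / 11, by omega, by omega, by omega, coprime_of_eleven p _ 6 hc6 (by omega)⟩
  · exact ⟨(p - 18) / 11, by omega, by omega, by omega, coprime_of_eleven p _ 18 hc18 (by omega)⟩
  · exact ⟨(p - 162) / 11, by omega, by omega, by omega,
      coprime_of_eleven p _ 162 hc162 (by omega)⟩
  · exact ⟨(p + 2) / 11, by omega, by omega, by omega, coprime_of_eleven p _ 2 h2 (by omega)⟩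
  · exact ⟨(p - 54) / 11, by omega, by omega, by omega, coprime_of_eleven p _ 54 hc54 (by omega)⟩

theorem queens_two_mul_colorable (p : ℕ) (hp : 92 ≤ p) (h6 : Nat.Coprime p 6) :
    (queens (2 * p)).Colorable (2 * p) := by
  obtain ⟨t, ht1, ht2, ht3, ht4⟩ := shift_exists p hp h6
  have h2 : Nat.Coprime 2 p := (Nat.Coprime.coprime_dvd_right (by norm_num : 2 ∣ 6) h6).symm
  have h3 : Nat.Coprime 3 p := (Nat.Coprime.coprime_dvd_right (by norm_num : 3 ∣ 6) h6).symm
  have hodd : p % 2 = 1 := Nat.odd_iff.1 (Nat.coprime_two_left.1 h2)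
  set h := (p - 9 * t) / 4 with hh
  have hp' : p = 4 * h + 9 * t := by omega
  set a := h + 3 * t with ha
  have h4a : 4 * a = p + 3 * t := by omega
  have hcop : Nat.Coprime a p := by
    have h5 : Nat.Coprime (3 * t) p := Nat.Coprime.mul_left h3 ht4
    have h6' : Nat.Coprime (4 * a) p := by
      rw [h4a]
      simpa using h5
    exact Nat.Coprime.coprime_mul_left h6'
  exact two_p_colorable p a h t (by omega) rfl (by omega) (by omega) (by omega) hcop h3

end Pool.Agent.Queens
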