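import Pool.Agent.W_MP_5f6f90_co.Bits

set_option autoImplicit false

namespace Pool.Agent.Queens

open Finset

/-- Row residue of the line with offset `r` in the column residue `y`. -/
def row (p r y : ℕ) : ℕ := (3 * y + r) % p

theorem row_lt (p r y : ℕ) (hp : 0 < p) : row p r y < p := Nat.mod_lt _ hp

theorem row_step (p a h r y : ℕ) (hp : p = 3 * a + h) (hh : 0 < h) :
    row p r ((y + a) % p) = if row p r y < h then row p r y + 3 * a else row p r y - h := by
  have hp0 : 0 < p := by omega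
  have h1 : 3 * ((y + a) % p) + r ≡ row p r y + 3 * a [MOD p] := by
    have h2 : 3 * ((y + a) % p) ≡ 3 * (y + a) [MOD p] := (Nat.mod_modEq _ _).mul_left 3
    have h3 := h2.add_right r
    have h4 : 3 * (y + a) + r = (3 * y + r) + 3 * a := by ring
    rw [h4] at h3
    have h5 : (3 * y + r) + 3 * a ≡ row p r y + 3 * a [MOD p] :=
      (Nat.mod_modEq _ _).symm.add_right _
    exact h3.trans h5
  have h6 : row p r ((y + a) % p) = (row p r y + 3 * a) % p := h1
  rw [h6]
  have hlt := row_lt p r y hp0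
  split_ifs with hc
  · exact Nat.mod_eq_of_lt (by omega)
  · have : row p r y + 3 * a = (row p r y - h) + p := by omega
    rw [this, Nat.add_mod_right, Nat.mod_eq_of_lt (by omega)]

/-- The default set of switched antidiagonal links. -/
def sw (p a h r y : ℕ) : ℕ :=
  if (y < a ∧ h ≤ row p r y ∧ row p r y < a) ∨
    (2 * a ≤ y ∧ y < 2 * a + h ∧ row p r y + h < a) then 1 else 0

/-- Values of an indicator. -/
theorem ite_cases (c : Prop) [Decidable c] :
    (c ∧ (if c then 1 else 0 : ℕ) = 1) ∨ (¬ c ∧ (if c then 1 else 0 : ℕ) = 0) := by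
  by_cases h : c
  · left; exact ⟨h, if_pos h⟩
  · right; exact ⟨h, if_neg h⟩

/-- The link labels of two consecutive antidiagonal links agree with the diagonal label. -/
theorem link_identity (p a h y y' I I' : ℕ) (hp : p = 3 * a + h) (hh : 0 < h) (hha : 2 * h ≤ a)
    (hy : y < p) (hI : I < p)
    (hy' : (y + a < p ∧ y' = y + a) ∨ (p ≤ y + a ∧ y' = y + a - p))
    (hI' : I' = if I < h then I + 3 * a else I - h)
    (hB : ¬ (I < p - 2 * a ∧ p - 2 * a ≤ y)) :
    ((if I < a then 1 else 0) + (if p - a ≤ y then 1 else 0) +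
      (if (y < a ∧ h ≤ I ∧ I < a) ∨ (2 * a ≤ y ∧ y < 2 * a + h ∧ I + h < a) then 1 else 0) +
      (if I' < a then 1 else 0) + (if p - a ≤ y' then 1 else 0) +
      (if (y' < a ∧ h ≤ I' ∧ I' < a) ∨ (2 * a ≤ y' ∧ y' < 2 * a + h ∧ I' + h < a) then 1 else 0) +
      1 + (if p - 2 * a ≤ I then 1 else 0) + (if p - 2 * a ≤ y then 1 else 0)) % 2 = 0 := by
  have hIc : (I < h ∧ I' = I + 3 * a) ∨ (h ≤ I ∧ I' = I - h) := by
    by_cases hc : I < h
    · left; exact ⟨hc, by rw [hI', if_pos hc]⟩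
    · right; exact ⟨by omega, by rw [hI', if_neg hc]⟩
  clear hI'
  have c1 := ite_cases (I < a)
  have c2 := ite_cases (p - a ≤ y)
  have c3 := ite_cases ((y < a ∧ h ≤ I ∧ I < a) ∨ (2 * a ≤ y ∧ y < 2 * a + h ∧ I + h < a))
  have c4 := ite_cases (I' < a)
  have c5 := ite_cases (p - a ≤ y')
  have c6 := ite_cases ((y' < a ∧ h ≤ I' ∧ I' < a) ∨ (2 * a ≤ y' ∧ y' < 2 * a + h ∧ I' + h < a))
  have c7 := ite_cases (p - 2 * a ≤ I)
  have c8 := ite_cases (p - 2 * a ≤ y)
  generalize (if I < a then 1 else 0 : ℕ) = v1 at *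
  generalize (if p - a ≤ y then 1 else 0 : ℕ) = v2 at *
  generalize (if (y < a ∧ h ≤ I ∧ I < a) ∨ (2 * a ≤ y ∧ y < 2 * a + h ∧ I + h < a) then 1 else 0
    : ℕ) = v3 at *
  generalize (if I' < a then 1 else 0 : ℕ) = v4 at *
  generalize (if p - a ≤ y' then 1 else 0 : ℕ) = v5 at *
  generalize (if (y' < a ∧ h ≤ I' ∧ I' < a) ∨ (2 * a ≤ y' ∧ y' < 2 * a + h ∧ I' + h < a)
    then 1 else 0 : ℕ) = v6 at *
  generalize (if p - 2 * a ≤ I then 1 else 0 : ℕ) = v7 at *
  generalize (if p - 2 * a ≤ y then 1 else 0 : ℕ) = v8 at *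
  rcases hy' with ⟨_, hy'⟩ | ⟨_, hy'⟩ <;> rcases hIc with ⟨_, hIc⟩ | ⟨_, hIc⟩ <;>
    rcases c1 with ⟨_, c1⟩ | ⟨_, c1⟩ <;> rcases c8 with ⟨_, c8⟩ | ⟨_, c8⟩ <;>
    rcases c4 with ⟨_, c4⟩ | ⟨_, c4⟩ <;> omega

/-- Key existence statement, given a correction `e`. -/
theorem bits_of_correction (p a h r : ℕ) (hp : p = 3 * a + h) (hh : 0 < h) (hha : 2 * h ≤ a)
    (hodd : p % 2 = 1) (hcop : Nat.Coprime a p) (hcop3 : Nat.Coprime 3 p) (e : ℕ → ℕ)
    (he2 : ∀ y < p, e y ≠ 0 → row p r y < a ∧ y < p - a)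
    (he3 : ∀ y < p, ¬ (row p r y < p - 2 * a ∧ p - 2 * a ≤ y) →
      (e y + e ((y + a) % p)) % 2 = 0)
    (hsum : (∑ y ∈ range p, sw p a h r y + ∑ y ∈ range p, e y) % 2 = 1) :
    ∃ x : ℕ → ℕ, ∀ y < p,
      (¬ (row p r y < a ∧ y < p - a) →
        (x ((y + a) % p) + x y + 1 + (if row p r y < a then 1 else 0) +
          (if p - a ≤ y then 1 else 0)) % 2 = 0) ∧
      (¬ (row p r y < p - 2 * a ∧ p - 2 * a ≤ y) →
        (x ((y + 2 * a) % p) + x y + 1 + (if p - 2 * a ≤ row p r y then 1 else 0) +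
          (if p - 2 * a ≤ y then 1 else 0)) % 2 = 0) := by
  have hp0 : 0 < p := by omega
  have ha0 : 0 < a := by omega
  set lab : ℕ → ℕ := fun y => 1 + (if row p r y < a then 1 else 0) +
    (if p - a ≤ y then 1 else 0) + sw p a h r y + e y with hlab
  have hs1 : ∑ y ∈ range p, (if row p r y < a then 1 else 0) = a := by
    have := sum_affine p 3 r hp0 hcop3 (fun z => if z < a then 1 else 0)
    unfold row
    rw [this, ← Finset.sum_filter, Finset.sum_const, smul_eq_mul, mul_one]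
    have : (range p).filter (fun z => z < a) = range a := by
      ext z; simp only [mem_filter, mem_range]; omega
    rw [this, card_range]
  have hs2 : ∑ y ∈ range p, (if p - a ≤ y then 1 else 0) = a := by
    rw [← Finset.sum_filter, Finset.sum_const, smul_eq_mul, mul_one]
    have : (range p).filter (fun z => p - a ≤ z) = Ico (p - a) p := by
      ext z; simp only [mem_filter, mem_range, mem_Ico]; omega
    rw [this, Nat.card_Ico]; omega
  have hlabsum : (∑ y ∈ range p, lab y) % 2 = 0 := by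
    have : ∑ y ∈ range p, lab y = p + a + a +
        (∑ y ∈ range p, sw p a h r y + ∑ y ∈ range p, e y) := by
      rw [hlab]
      simp only [Finset.sum_add_distrib, hs1, hs2, Finset.sum_const, card_range, smul_eq_mul,
        mul_one]
      ring
    omega
  obtain ⟨x, hx⟩ := exists_bits p a (by omega) hcop lab hlabsum
  refine ⟨x, fun y hy => ⟨fun hA => ?_, fun hB => ?_⟩⟩
  · have h1 := hx y hy
    have h2 : e y = 0 := by
      by_contra hne
      exact hA (he2 y hy hne)
    have h3 : sw p a h r y = 0 := by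
      unfold sw
      rw [if_neg]
      intro hc
      apply hA
      omega
    simp only [hlab, h2, h3] at h1
    split_ifs at h1 ⊢ <;> omega
  · have h1 := hx y hy
    set y' := (y + a) % p with hy'
    have hy'lt : y' < p := Nat.mod_lt _ hp0
    have h2 := hx y' hy'lt
    have h3 : (y' + a) % p = (y + 2 * a) % p := by
      rw [hy', Nat.mod_add_mod]; congr 1; ring
    rw [h3] at h2
    have h4 := he3 y hy hB
    rw [← hy'] at h4
    have h5 := row_step p a h r y hp hh
    rw [← hy'] at h5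
    have hI := row_lt p r y hp0
    have hy'cases : (y + a < p ∧ y' = y + a) ∨ (p ≤ y + a ∧ y' = y + a - p) := by
      rcases Nat.lt_or_ge (y + a) p with hlt | hge
      · left; exact ⟨hlt, by rw [hy', Nat.mod_eq_of_lt hlt]⟩
      · right
        refine ⟨hge, ?_⟩
        rw [hy', Nat.mod_eq_sub_mod hge, Nat.mod_eq_of_lt (by omega)]
    simp only [hlab] at h1 h2
    unfold sw at h1 h2
    have h6 := link_identity p a h y y' (row p r y) (row p r y') hp hh hha hy hI hy'cases h5 hB
    omega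

end Pool.Agent.Queens
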