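import Pool.Agent.W_MP_5f6f90_co.Count

set_option autoImplicit false

namespace Pool.Agent.Queens

open Finset

/-- The `n × n` queens graph. -/
def queens (n : ℕ) : SimpleGraph (Fin n × Fin n) :=
  SimpleGraph.fromRel (fun p q : Fin n × Fin n =>
        p.1 = q.1 ∨ p.2 = q.2 ∨
        ((p.1 : ℕ) : ℤ) - ((q.1 : ℕ) : ℤ) = ((p.2 : ℕ) : ℤ) - ((q.2 : ℕ) : ℤ) ∨
        ((p.1 : ℕ) : ℤ) - ((q.1 : ℕ) : ℤ) = ((q.2 : ℕ) : ℤ) - ((p.2 : ℕ) : ℤ))

theorem dvd_of_dvd_mul (p m : ℕ) (hc : Nat.Coprime m p) (X : ℤ) (h : (p : ℤ) ∣ (m : ℤ) * X) :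
    (p : ℤ) ∣ X := by
  have hc' : IsCoprime (p : ℤ) (m : ℤ) := (Nat.isCoprime_iff_coprime.2 hc).symm
  exact hc'.dvd_of_dvd_mul_left h

theorem row_dvd (p r y : ℕ) : (p : ℤ) ∣ (3 * (y : ℤ) + r) - row p r y := by
  unfold row
  have h1 : (((3 * y + r) % p : ℕ) : ℤ) = (3 * (y : ℤ) + r) % p := by push_cast; ring_nf
  rw [h1]
  exact Int.dvd_self_sub_emod

theorem add_mod_cases (p y a : ℕ) (hy : y < p) (ha : a < p) (y' : ℕ) (hy' : y' < p)
    (hd : (p : ℤ) ∣ (y' : ℤ) - y - a) : y' = (y + a) % p := by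
  obtain ⟨k, hk⟩ := hd
  have hp : (0 : ℤ) < p := by omega
  have h1 : k < 1 := by
    by_contra hc
    have : (p : ℤ) * 1 ≤ p * k := mul_le_mul_of_nonneg_left (by omega) hp.le
    omega
  have h2 : -2 < k := by
    by_contra hc
    have : (p : ℤ) * k ≤ p * (-2) := mul_le_mul_of_nonneg_left (by omega) hp.le
    omega
  have hk' : k = 0 ∨ k = -1 := by omega
  rcases hk' with rfl | rfl
  · have : y' = y + a := by omega
    rw [← this, Nat.mod_eq_of_lt hy']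
  · have : y + a = y' + p := by omega
    rw [this, Nat.add_mod_right, Nat.mod_eq_of_lt hy']

section

variable (p a h t r : ℕ) (x : ℕ → ℕ)

/-- Cells `(I, Y + pL)` in the top half and `(p + I', Y' + pL')` in the bottom half on a common
antidiagonal get different colours. -/
theorem anti_case (hp : p = 3 * a + h) (ha : a = h + 3 * t) (hh : 0 < h)
    (hht : h + 3 ≤ 3 * t) (hodd : t % 2 = 1)
    (hA : ∀ y < p, ¬ (row p r y < a ∧ y < p - a) →
        (x ((y + a) % p) + x y + 1 + (if row p r y < a then 1 else 0) +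
          (if p - a ≤ y then 1 else 0)) % 2 = 0)
    (I Y L I' Y' L' : ℕ) (hI : I < p) (hY : Y < p) (hL : L < 2) (hI' : I' < p) (hY' : Y' < p)
    (hL' : L' < 2) (hr : row p r Y = I) (hr' : row p r Y' = (I' + 3 * t) % p)
    (hS : I + (Y + p * L) = (p + I') + (Y' + p * L'))
    (hbit : (L + x Y) % 2 = (L' + 1 + x Y') % 2) : False := by
  have hp0 : 0 < p := by omega
  have hpodd : p % 2 = 1 := by omega
  have hcop4 : Nat.Coprime 4 p := by
    have : Nat.Coprime 2 p := by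
      rw [Nat.coprime_two_left]; exact Nat.odd_iff.2 hpodd
    exact Nat.Coprime.mul_left this this
  have hYY : Y' = (Y + a) % p := by
    apply add_mod_cases p Y a hY (by omega) Y' hY'
    apply dvd_of_dvd_mul p 4 hcop4
    have h1 := row_dvd p r Y
    have h2 := row_dvd p r Y'
    rw [hr] at h1
    rw [hr'] at h2
    have h3 : (p : ℤ) ∣ ((I' : ℤ) + 3 * t) - ((I' + 3 * t) % p : ℕ) := by
      have h4 : (((I' + 3 * t) % p : ℕ) : ℤ) = ((I' : ℤ) + 3 * t) % p := by push_cast; ring_nf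
      rw [h4]
      exact Int.dvd_self_sub_emod
    have h5 := (h2.sub h3).sub h1
    have h6 : (p : ℤ) ∣ (p : ℤ) * (2 + L' - L) := dvd_mul_right _ _
    have h7 := h5.sub h6
    have h8 : ((4 : ℕ) : ℤ) * ((Y' : ℤ) - Y - a) =
        (3 * (Y' : ℤ) + r - ((I' + 3 * t) % p : ℕ) - ((I' : ℤ) + 3 * t - ((I' + 3 * t) % p : ℕ)) -
        (3 * (Y : ℤ) + r - I)) - (p : ℤ) * (2 + L' - L) := by
      have hS' : (I : ℤ) + (Y + p * L) = (p + I') + (Y' + p * L') := by exact_mod_cast hS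
      have hp' : (p : ℤ) = 3 * a + h := by exact_mod_cast hp
      have ha' : (a : ℤ) = h + 3 * t := by exact_mod_cast ha
      push_cast
      linear_combination (-1) * hS' + hp' - ha'
    rw [h8]
    exact h7
  have h1 := hA Y hY
  have h2 := row_step p a h r Y hp hh
  rw [← hYY] at h1 h2
  rw [hr] at h1 h2
  rw [hr'] at h2
  have h3 : (Y + a < p ∧ Y' = Y + a) ∨ (p ≤ Y + a ∧ Y' = Y + a - p) := by
    rcases Nat.lt_or_ge (Y + a) p with hlt | hge
    · left; exact ⟨hlt, by rw [hYY, Nat.mod_eq_of_lt hlt]⟩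
    · right
      refine ⟨hge, ?_⟩
      rw [hYY, Nat.mod_eq_sub_mod hge, Nat.mod_eq_of_lt (by omega)]
  have h4 : (I' + 3 * t < p ∧ (I' + 3 * t) % p = I' + 3 * t) ∨
      (p ≤ I' + 3 * t ∧ (I' + 3 * t) % p = I' + 3 * t - p) := by
    rcases Nat.lt_or_ge (I' + 3 * t) p with hlt | hge
    · left; exact ⟨hlt, by rw [Nat.mod_eq_of_lt hlt]⟩
    · right
      refine ⟨hge, ?_⟩
      rw [Nat.mod_eq_sub_mod hge, Nat.mod_eq_of_lt (by omega)]
  generalize (I' + 3 * t) % p = J' at *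
  have hL2 : L = 0 ∨ L = 1 := by omega
  have hL2' : L' = 0 ∨ L' = 1 := by omega
  clear hA hYY
  rcases hL2 with rfl | rfl <;> rcases hL2' with rfl | rfl <;> rcases h3 with ⟨_, h3⟩ | ⟨_, h3⟩ <;>
    rcases h4 with ⟨_, h4⟩ | ⟨_, h4⟩ <;> split_ifs at h1 h2 <;> omega

/-- Cells `(I, Y + pL)` in the top half and `(p + I', Y' + pL')` in the bottom half on a common
diagonal get different colours. -/
theorem diag_case (hp : p = 3 * a + h) (ha : a = h + 3 * t) (hh : 0 < h)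
    (hht : h + 3 ≤ 3 * t) (hodd : t % 2 = 1)
    (hB : ∀ y < p, ¬ (row p r y < p - 2 * a ∧ p - 2 * a ≤ y) →
        (x ((y + 2 * a) % p) + x y + 1 + (if p - 2 * a ≤ row p r y then 1 else 0) +
          (if p - 2 * a ≤ y then 1 else 0)) % 2 = 0)
    (I Y L I' Y' L' : ℕ) (hI : I < p) (hY : Y < p) (hL : L < 2) (hI' : I' < p) (hY' : Y' < p)
    (hL' : L' < 2) (hr : row p r Y = I) (hr' : row p r Y' = (I' + 3 * t) % p)
    (hD : I + (Y' + p * L') = (p + I') + (Y + p * L))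
    (hbit : (L + x Y) % 2 = (L' + 1 + x Y') % 2) : False := by
  have hp0 : 0 < p := by omega
  have hpodd : p % 2 = 1 := by omega
  have hcop2 : Nat.Coprime 2 p := by
    rw [Nat.coprime_two_left]; exact Nat.odd_iff.2 hpodd
  have hYY : Y' = (Y + 2 * a) % p := by
    apply add_mod_cases p Y (2 * a) hY (by omega) Y' hY'
    apply dvd_of_dvd_mul p 2 hcop2
    have h1 := row_dvd p r Y
    have h2 := row_dvd p r Y'
    rw [hr] at h1
    rw [hr'] at h2
    have h3 : (p : ℤ) ∣ ((I' : ℤ) + 3 * t) - ((I' + 3 * t) % p : ℕ) := by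
      have h4 : (((I' + 3 * t) % p : ℕ) : ℤ) = ((I' : ℤ) + 3 * t) % p := by push_cast; ring_nf
      rw [h4]
      exact Int.dvd_self_sub_emod
    have h5 := (h2.sub h3).sub h1
    have h6 : (p : ℤ) ∣ (p : ℤ) * (L - L' + 2) := dvd_mul_right _ _
    have h7 := h5.sub h6
    have h8 : ((2 : ℕ) : ℤ) * ((Y' : ℤ) - Y - (2 * a : ℕ)) =
        (3 * (Y' : ℤ) + r - ((I' + 3 * t) % p : ℕ) - ((I' : ℤ) + 3 * t - ((I' + 3 * t) % p : ℕ)) -
        (3 * (Y : ℤ) + r - I)) - (p : ℤ) * (L - L' + 2) := by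
      have hD' : (I : ℤ) + (Y' + p * L') = (p + I') + (Y + p * L) := by exact_mod_cast hD
      have hp' : (p : ℤ) = 3 * a + h := by exact_mod_cast hp
      have ha' : (a : ℤ) = h + 3 * t := by exact_mod_cast ha
      push_cast
      linear_combination (-1) * hD' + hp' - ha'
    rw [h8]
    exact h7
  have h1 := hB Y hY
  rw [← hYY] at h1
  rw [hr] at h1
  have h2 : (p : ℤ) ∣ (I' : ℤ) - I - (2 * a : ℕ) := by
    have hdY : (p : ℤ) ∣ (Y' : ℤ) - Y - (2 * a : ℕ) := by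
      rw [hYY]
      have h4 : (((Y + 2 * a) % p : ℕ) : ℤ) = ((Y : ℤ) + (2 * a : ℕ)) % p := by norm_cast
      rw [h4]
      have h5 : (p : ℤ) ∣ ((Y : ℤ) + (2 * a : ℕ)) - ((Y : ℤ) + (2 * a : ℕ)) % p :=
        Int.dvd_self_sub_emod
      have h5' := (dvd_neg (a := (p : ℤ))).2 h5
      have h5'' : ((Y : ℤ) + (2 * a : ℕ)) % p - Y - (2 * a : ℕ) =
        -(((Y : ℤ) + (2 * a : ℕ)) - ((Y : ℤ) + (2 * a : ℕ)) % p) := by ring
      rw [h5'']
      exact h5'
    have h6 : (p : ℤ) ∣ (p : ℤ) * (L' - L - 1) := dvd_mul_right _ _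
    have h7 := hdY.add h6
    have hD' : (I : ℤ) + (Y' + p * L') = (p + I') + (Y + p * L) := by exact_mod_cast hD
    have h8 : (I' : ℤ) - I - (2 * a : ℕ) = (Y' : ℤ) - Y - (2 * a : ℕ) + (p : ℤ) * (L' - L - 1) := by
      linear_combination (-1) * hD'
    rw [h8]
    exact h7
  have h2' := add_mod_cases p I (2 * a) hI (by omega) I' hI' h2
  have h3 : (Y + 2 * a < p ∧ Y' = Y + 2 * a) ∨ (p ≤ Y + 2 * a ∧ Y' = Y + 2 * a - p) := by
    rcases Nat.lt_or_ge (Y + 2 * a) p with hlt | hge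
    · left; exact ⟨hlt, by rw [hYY, Nat.mod_eq_of_lt hlt]⟩
    · right
      refine ⟨hge, ?_⟩
      rw [hYY, Nat.mod_eq_sub_mod hge, Nat.mod_eq_of_lt (by omega)]
  have h4 : (I + 2 * a < p ∧ I' = I + 2 * a) ∨ (p ≤ I + 2 * a ∧ I' = I + 2 * a - p) := by
    rcases Nat.lt_or_ge (I + 2 * a) p with hlt | hge
    · left; exact ⟨hlt, by rw [h2', Nat.mod_eq_of_lt hlt]⟩
    · right
      refine ⟨hge, ?_⟩
      rw [h2', Nat.mod_eq_sub_mod hge, Nat.mod_eq_of_lt (by omega)]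
  have hL2 : L = 0 ∨ L = 1 := by omega
  have hL2' : L' = 0 ∨ L' = 1 := by omega
  clear hB hYY h2' h2
  rcases hL2 with rfl | rfl <;> rcases hL2' with rfl | rfl <;> rcases h3 with ⟨_, h3⟩ | ⟨_, h3⟩ <;>
    rcases h4 with ⟨_, h4⟩ | ⟨_, h4⟩ <;> split_ifs at h1 <;> omega

end

end Pool.Agent.Queens
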