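import Pool.Agent.W_MP_5f6f90_co.TwoP

set_option autoImplicit false

namespace Pool.Agent.Queens

open Finset

/-- Class of a cell. -/
def cls (p t i j : ℕ) : ℕ := (i % p + 3 * t * (i / p) + 3 * (p - j % p)) % p

theorem row_cls (p t i j : ℕ) (hp : 0 < p) :
    row p (cls p t i j) (j % p) = (i % p + 3 * t * (i / p)) % p := by
  unfold row cls
  have hj := Nat.mod_lt j hp
  rw [Nat.add_mod_mod]
  have : 3 * (j % p) + (i % p + 3 * t * (i / p) + 3 * (p - j % p)) =
      (i % p + 3 * t * (i / p)) + p * 3 := by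
    omega
  rw [this, Nat.add_mul_mod_self_left]

theorem eq_of_dvd_sub (p a b : ℕ) (ha : a < p) (hb : b < p) (h : (p : ℤ) ∣ (a : ℤ) - b) :
    a = b := by
  have := add_mod_cases p b 0 hb (by omega) a ha (by simpa using h)
  rwa [add_zero, Nat.mod_eq_of_lt hb] at this

theorem mod_dvd (p s : ℕ) : (p : ℤ) ∣ (s : ℤ) - ((s % p : ℕ) : ℤ) := by
  rw [Int.natCast_mod]
  exact Int.dvd_self_sub_emod

/-- Main verification. -/
theorem proper (p a h t : ℕ) (hp : p = 3 * a + h) (ha : a = h + 3 * t) (hh : 0 < h)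
    (hht : h + 3 ≤ 3 * t) (hodd : t % 2 = 1) (hcop3 : Nat.Coprime 3 p)
    (x : ℕ → ℕ → ℕ)
    (hx : ∀ r < p, ∀ y < p,
      (¬ (row p r y < a ∧ y < p - a) →
        (x r ((y + a) % p) + x r y + 1 + (if row p r y < a then 1 else 0) +
          (if p - a ≤ y then 1 else 0)) % 2 = 0) ∧
      (¬ (row p r y < p - 2 * a ∧ p - 2 * a ≤ y) →
        (x r ((y + 2 * a) % p) + x r y + 1 + (if p - 2 * a ≤ row p r y then 1 else 0) +
          (if p - 2 * a ≤ y then 1 else 0)) % 2 = 0))
    (i j i' j' : ℕ) (hi : i < 2 * p) (hj : j < 2 * p) (hi' : i' < 2 * p) (hj' : j' < 2 * p)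
    (hcls : cls p t i j = cls p t i' j')
    (hbit : (j / p + i / p + x (cls p t i j) (j % p)) % 2 =
      (j' / p + i' / p + x (cls p t i' j') (j' % p)) % 2)
    (hconf : i = i' ∨ j = j' ∨ i + j' = i' + j ∨ i + j = i' + j') : i = i' ∧ j = j' := by
  wlog hle : i ≤ i' generalizing i j i' j'
  · have := this i' j' i j hi' hj' hi hj hcls.symm hbit.symm (by omega) (by omega)
    exact ⟨this.1.symm, this.2.symm⟩
  have hp0 : 0 < p := by omega
  have hpodd : p % 2 = 1 := by omega
  have hcop2 : Nat.Coprime 2 p := by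
    rw [Nat.coprime_two_left]; exact Nat.odd_iff.2 hpodd
  have hcop4 : Nat.Coprime 4 p := Nat.Coprime.mul_left hcop2 hcop2
  have hr1 := row_cls p t i j hp0
  have hr2 := row_cls p t i' j' hp0
  rw [← hcls] at hr2 hbit
  have hrlt : cls p t i j < p := Nat.mod_lt _ hp0
  generalize cls p t i j = r at *
  have hI := Nat.mod_lt i hp0
  have hI' := Nat.mod_lt i' hp0
  have hY := Nat.mod_lt j hp0
  have hY' := Nat.mod_lt j' hp0
  have hT : i / p < 2 := Nat.div_lt_of_lt_mul (by omega)
  have hT' : i' / p < 2 := Nat.div_lt_of_lt_mul (by omega)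
  have hL : j / p < 2 := Nat.div_lt_of_lt_mul (by omega)
  have hL' : j' / p < 2 := Nat.div_lt_of_lt_mul (by omega)
  have hTle : i / p ≤ i' / p := Nat.div_le_div_right hle
  have ei : i = i % p + p * (i / p) := (Nat.mod_add_div i p).symm
  have ei' : i' = i' % p + p * (i' / p) := (Nat.mod_add_div i' p).symm
  have ej : j = j % p + p * (j / p) := (Nat.mod_add_div j p).symm
  have ej' : j' = j' % p + p * (j' / p) := (Nat.mod_add_div j' p).symm
  generalize i % p = I at *
  generalize i' % p = I' at *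
  generalize j % p = Y at *
  generalize j' % p = Y' at *
  generalize i / p = T at *
  generalize i' / p = T' at *
  generalize j / p = L at *
  generalize j' / p = L' at *
  rcases Nat.lt_or_ge T T' with hlt | hge
  · -- different halves
    have hT0 : T = 0 := by omega
    have hT1 : T' = 1 := by omega
    subst hT0; subst hT1
    have hr1' : row p r Y = I := by
      rw [hr1]; simp [Nat.mod_eq_of_lt hI]
    have hr2' : row p r Y' = (I' + 3 * t) % p := by
      rw [hr2]; simp
    rcases hconf with hc | hc | hc | hc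
    · exfalso
      rw [ei, ei'] at hc
      omega
    · exfalso
      rw [ej, ej'] at hc
      have hLL : L = L' := by
        have h2 : L = 0 ∨ L = 1 := by omega
        have h3 : L' = 0 ∨ L' = 1 := by omega
        rcases h2 with rfl | rfl <;> rcases h3 with rfl | rfl <;> omega
      subst hLL
      have hYY : Y = Y' := by omega
      subst hYY
      omega
    · exfalso
      refine diag_case p a h t r (x r) hp ha hh hht hodd (fun y hy => (hx r hrlt y hy).2)
        I Y L I' Y' L' hI hY hL hI' hY' hL' hr1' hr2' ?_ ?_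
      · rw [ei, ei', ej, ej'] at hc
        omega
      · omega
    · exfalso
      refine anti_case p a h t r (x r) hp ha hh hht hodd (fun y hy => (hx r hrlt y hy).1)
        I Y L I' Y' L' hI hY hL hI' hY' hL' hr1' hr2' ?_ ?_
      · rw [ei, ei', ej, ej'] at hc
        omega
      · omega
  · -- same half
    have hTT : T = T' := by omega
    subst hTT
    -- basic divisibilities
    have d1 := row_dvd p r Y
    have d2 := row_dvd p r Y'
    rw [hr1] at d1
    rw [hr2] at d2
    have d3 := mod_dvd p (I + 3 * t * T)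
    have d4 := mod_dvd p (I' + 3 * t * T)
    have d5 : (p : ℤ) ∣ 3 * ((Y : ℤ) - Y') - ((I : ℤ) - I') := by
      have := ((d1.sub d2).sub d3).add d4
      have h9 : 3 * ((Y : ℤ) - Y') - ((I : ℤ) - I') =
        (3 * (Y : ℤ) + r - ((I + 3 * t * T) % p : ℕ) - (3 * (Y' : ℤ) + r -
          ((I' + 3 * t * T) % p : ℕ)) - (((I + 3 * t * T : ℕ) : ℤ) - ((I + 3 * t * T) % p : ℕ)) +
          (((I' + 3 * t * T : ℕ) : ℤ) - ((I' + 3 * t * T) % p : ℕ))) := by
        push_cast; ring
      rw [h9]
      exact this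
    have hfin : Y = Y' → i = i' ∧ j = j' := by
      intro hYY
      subst hYY
      have h1 : (p : ℤ) ∣ (I : ℤ) - I' := by
        have h2 := (dvd_neg (a := (p : ℤ))).2 d5
        have h3 : (I : ℤ) - I' = -(3 * ((Y : ℤ) - Y) - ((I : ℤ) - I')) := by ring
        rw [h3]; exact h2
      have hII := eq_of_dvd_sub p I I' hI hI' h1
      subst hII
      have hLL : L = L' := by omega
      subst hLL
      exact ⟨by omega, by omega⟩
    apply hfin
    apply eq_of_dvd_sub p Y Y' hY hY'
    rcases hconf with hc | hc | hc | hc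
    · have hII : I = I' := by
        rw [ei, ei'] at hc
        omega
      subst hII
      apply dvd_of_dvd_mul p 3 hcop3
      have h3 : ((3 : ℕ) : ℤ) * ((Y : ℤ) - Y') = 3 * ((Y : ℤ) - Y') - ((I : ℤ) - I) := by
        push_cast; ring
      rw [h3]; exact d5
    · have hYY : Y = Y' := by
        rw [ej, ej'] at hc
        have h2 : L = 0 ∨ L = 1 := by omega
        have h3 : L' = 0 ∨ L' = 1 := by omega
        rcases h2 with rfl | rfl <;> rcases h3 with rfl | rfl <;> omega
      rw [hYY]; simp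
    · apply dvd_of_dvd_mul p 2 hcop2
      have h6 : (p : ℤ) ∣ (p : ℤ) * (L - L') := dvd_mul_right _ _
      have hc' : (i : ℤ) + j' = i' + j := by exact_mod_cast hc
      have h3 : ((2 : ℕ) : ℤ) * ((Y : ℤ) - Y') =
          3 * ((Y : ℤ) - Y') - ((I : ℤ) - I') + (p : ℤ) * (L - L') := by
        rw [ei, ei', ej, ej'] at hc'
        push_cast at hc' ⊢
        linear_combination hc'
      rw [h3]
      exact d5.add h6
    · apply dvd_of_dvd_mul p 4 hcop4
      have h6 : (p : ℤ) ∣ (p : ℤ) * (L - L') := dvd_mul_right _ _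
      have hc' : (i : ℤ) + j = i' + j' := by exact_mod_cast hc
      have h3 : ((4 : ℕ) : ℤ) * ((Y : ℤ) - Y') =
          3 * ((Y : ℤ) - Y') - ((I : ℤ) - I') + (p : ℤ) * (L - L') * (-1) := by
        rw [ei, ei', ej, ej'] at hc'
        push_cast at hc' ⊢
        linear_combination hc'
      rw [h3]
      have h8 := d5.add (h6.mul_right (-1))
      exact h8

theorem two_p_colorable (p a h t : ℕ) (hp : p = 3 * a + h) (ha : a = h + 3 * t) (hh : 0 < h)
    (hht : h + 3 ≤ 3 * t) (hodd : t % 2 = 1) (hcop : Nat.Coprime a p) (hcop3 : Nat.Coprime 3 p) :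
    (queens (2 * p)).Colorable (2 * p) := by
  have hp0 : 0 < p := by omega
  have hex : ∀ r, ∃ x : ℕ → ℕ, r < p → ∀ y < p,
      (¬ (row p r y < a ∧ y < p - a) →
        (x ((y + a) % p) + x y + 1 + (if row p r y < a then 1 else 0) +
          (if p - a ≤ y then 1 else 0)) % 2 = 0) ∧
      (¬ (row p r y < p - 2 * a ∧ p - 2 * a ≤ y) →
        (x ((y + 2 * a) % p) + x y + 1 + (if p - 2 * a ≤ row p r y then 1 else 0) +
          (if p - 2 * a ≤ y then 1 else 0)) % 2 = 0) := by
    intro r
    by_cases hr : r < p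
    · obtain ⟨x, hx⟩ := bits_exist p a h t r hp ha hh hht hodd hcop hcop3 hr
      exact ⟨x, fun _ => hx⟩
    · exact ⟨fun _ => 0, fun h => absurd h hr⟩
  choose x hx using hex
  let col : Fin (2 * p) × Fin (2 * p) → Fin p × Fin 2 := fun c =>
    (⟨cls p t c.1 c.2, Nat.mod_lt _ hp0⟩,
      ⟨((c.2 : ℕ) / p + (c.1 : ℕ) / p + x (cls p t c.1 c.2) ((c.2 : ℕ) % p)) % 2,
        Nat.mod_lt _ (by norm_num)⟩)
  have hcol : ∀ c c' : Fin (2 * p) × Fin (2 * p), col c = col c' →
      ((c.1 : ℕ) = c'.1 ∨ (c.2 : ℕ) = c'.2 ∨ (c.1 : ℕ) + c'.2 = c'.1 + c.2 ∨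
        (c.1 : ℕ) + c.2 = c'.1 + c'.2) → c = c' := by
    intro c c' hcc hconf
    have h1 : cls p t c.1 c.2 = cls p t c'.1 c'.2 := by
      have := congrArg (fun z => ((z.1 : Fin p) : ℕ)) hcc
      exact this
    have h2 : ((c.2 : ℕ) / p + (c.1 : ℕ) / p + x (cls p t c.1 c.2) ((c.2 : ℕ) % p)) % 2 =
        ((c'.2 : ℕ) / p + (c'.1 : ℕ) / p + x (cls p t c'.1 c'.2) ((c'.2 : ℕ) % p)) % 2 := by
      have := congrArg (fun z => ((z.2 : Fin 2) : ℕ)) hcc
      exact this
    have h3 := proper p a h t hp ha hh hht hodd hcop3 x (fun r hr => hx r hr)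
      c.1 c.2 c'.1 c'.2 c.1.2 c.2.2 c'.1.2 c'.2.2 h1 h2 hconf
    exact Prod.ext (Fin.ext h3.1) (Fin.ext h3.2)
  have hG : ∀ {c c' : Fin (2 * p) × Fin (2 * p)}, (queens (2 * p)).Adj c c' → col c ≠ col c' := by
    intro c c' hadj hcc
    unfold queens at hadj
    rw [SimpleGraph.fromRel_adj] at hadj
    obtain ⟨hne, hor⟩ := hadj
    apply hne
    apply hcol c c' hcc
    rcases hor with (h | h | h | h) | (h | h | h | h)
    · left; rw [h]
    · right; left; rw [h]
    · right; right; left; omega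
    · right; right; right; omega
    · left; rw [h]
    · right; left; rw [h]
    · right; right; left; omega
    · right; right; right; omega
  have hcard : Fintype.card (Fin p × Fin 2) = 2 * p := by
    simp [mul_comm]
  have hfin := (SimpleGraph.Coloring.mk col hG).colorable
  rwa [hcard] at hfin

end Pool.Agent.Queens
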